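import Pool.Agent.L7h83.GK.Asm

set_option autoImplicit false

/-!
# Faithful covers with the weights two and four mixed

Graphs are finite, with loops and parallel edges allowed: `MGraph V E` is a graph with vertex set
`V` and edge set `E`, `G.deg D v` is the degree of `v` in the subgraph with edge set `D` (loops
count twice), and `G.IsCircuit C` says that `C` is the edge set of a connected 2-regular subgraph.
The three are defined in `Pool.Agent.H126R2.CDC.Defs`.

Idea of the proof.  Let `K` be an even set with connected complement and let the other edges be
covered by two even sets.  The proof of the circuit double cover theorem in the starting files gives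
eight even sets, indexed by the group of order eight, such that every edge `e` is in two of them
whose indices differ by the value `A e` of a flow whose first coordinate is the indicator of `K`.
Four of the eight even sets (a coset of a plane) contain every edge outside `K` twice and every edge
of `K` once: at a vertex of degree three the side of the edges outside `K` cannot change, and
vertices of larger degree are expanded so that the complement of `K` stays connected.  For a subset
`D` of `K` there is an even set `C` which meets `K` in `D`.  The sum of `C` and each of these four
even sets, with the other four, covers the edges of `D` four times and all other edges twice.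
-/

namespace Pool.Agent.Results.MP_2c3f2e_co.HeavyEvenSets

open Finset
open Pool.Agent.H126R2.CDC (MGraph)

/-- Let `K 1, ..., K s` be even edge sets of a finite graph `G` such that for every `i` the edges
outside `K i` form a connected spanning subgraph and are contained in the union of two even sets.
Then every eulerian weight `w` with `2 s ≤ w e ≤ 2 s + 1 + 2 * #{i | e ∈ K i}` for all edges `e` has
a faithful circuit cover. -/
theorem result {V E : Type} [Fintype V] [DecidableEq V] [Fintype E] [DecidableEq E]
    (G : MGraph V E) (s : ℕ) (K : Fin s → Finset E)
    (hK : ∀ i v, Even (G.deg (K i) v))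
    (hcon : ∀ i, ∀ X : Finset V, X.Nonempty → X ≠ univ →
      ∃ e ∉ K i, ∃ a ∈ X, ∃ b ∉ X, G.ends e = s(a, b))
    (hflow : ∀ i, ∃ Y Z : Finset E, (∀ v, Even (G.deg Y v)) ∧ (∀ v, Even (G.deg Z v)) ∧
      ∀ e, e ∈ K i ∨ e ∈ Y ∨ e ∈ Z)
    (w : E → ℕ)
    (heul : ∀ (X : Finset V) (T : Finset E),
      (∀ f, f ∈ T ↔ ∃ a ∈ X, ∃ b ∉ X, G.ends f = s(a, b)) → Even (∑ e ∈ T, w e))
    (hw : ∀ e, 2 * s ≤ w e ∧ w e ≤ 2 * s + 1 + 2 * (univ.filter fun i => e ∈ K i).card) :
    ∃ F : Multiset (Finset E), (∀ C ∈ F, G.IsCircuit C) ∧
      ∀ e, F.countP (fun C => e ∈ C) = w e :=
  Pool.Agent.L7h83.GK.s_all V E G s K hK hcon hflow w heul hw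

end Pool.Agent.Results.MP_2c3f2e_co.HeavyEvenSets
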