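import Pool.Agent.L7h37.GB.Even

set_option autoImplicit false

/-!
# Faithful circuit covers from spanning connected even subgraphs

Graphs are finite, with loops and parallel edges allowed: `MGraph V E` is a graph with vertex set
`V` and edge set `E`, `G.deg D v` is the degree of `v` in the subgraph with edge set `D` (loops
count twice), and `G.IsCircuit C` says that `C` is the edge set of a connected 2-regular subgraph.
The three are defined in `Pool.Agent.H126R2.CDC.Defs`.

Idea of the proof. If `H` is an even subgraph that meets every nonempty cut, every edge set `Y`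
disjoint from `H` is `Z \ H` for an even subgraph `Z`. The even subgraphs `Z` and `Z + H` cover the
edges of `H` once, those of `Y` twice and no others. So `k` such subgraphs give all weights between
`n` and `2 k - n` of the right parity, `n` the number of the subgraphs containing the edge, and one
further even subgraph corrects the parity. If every nonempty cut has at least `2 t` edges there are
`t` disjoint sets `T_i` meeting all nonempty cuts, and even subgraphs between `T_i` and
`T_i ∪ T_k`.
-/

namespace Pool.Agent.Results.MP_2c3f2e_co.SpanningEvenSubgraphs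

open Finset
open Pool.Agent.H126R2.CDC (MGraph)
open Pool.Agent.Helper879.ECD (F2 IsFlow f2_cases cn)

open Classical in
/-- the set of the edges of `G` with exactly one end in `X` -/
noncomputable def cut {V E : Type} [Fintype E] (G : MGraph V E) (X : Finset V) : Finset E :=
  univ.filter fun e => (∃ x ∈ G.ends e, x ∈ X) ∧ ∃ y ∈ G.ends e, y ∉ X

/-- `(G, w)` has a faithful circuit cover: a finite family of circuits, repetitions allowed, such
that every edge `e` lies in exactly `w e` members -/
def HasCover {V E : Type} [Fintype V] [DecidableEq V] [Fintype E] [DecidableEq E]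
    (G : MGraph V E) (w : E → ℕ) : Prop :=
  ∃ F : Multiset (Finset E), (∀ C ∈ F, G.IsCircuit C) ∧ ∀ e, F.countP (fun C => e ∈ C) = w e

lemma mem_cut {V E : Type} [Fintype V] [DecidableEq V] [Fintype E] [DecidableEq E]
    (G : MGraph V E) (v : E × Bool → V) (hv : ∀ e, G.ends e = s(v (e, false), v (e, true)))
    (X : Finset V) (e : E) : e ∈ cut G X ↔ ¬ (v (e, false) ∈ X ↔ v (e, true) ∈ X) := by
  simp only [cut, Finset.mem_filter, Finset.mem_univ, true_and, hv e, Sym2.mem_iff]
  constructor
  · rintro ⟨⟨x, hx, hx'⟩, ⟨y, hy, hy'⟩⟩ h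
    rcases hx with rfl | rfl <;> rcases hy with rfl | rfl <;> tauto
  · intro h
    by_cases h1 : v (e, false) ∈ X
    · have h2 : v (e, true) ∉ X := fun h2 => h ⟨fun _ => h2, fun _ => h1⟩
      exact ⟨⟨_, Or.inl rfl, h1⟩, ⟨_, Or.inr rfl, h2⟩⟩
    · have h2 : v (e, true) ∈ X := by
        by_contra h2
        exact h ⟨fun h3 => absurd h3 h1, fun h3 => absurd h3 h2⟩
      exact ⟨⟨_, Or.inr rfl, h2⟩, ⟨_, Or.inl rfl, h1⟩⟩

lemma cn_eq {V E : Type} [Fintype V] [DecidableEq V] [Fintype E] [DecidableEq E]
    (G : MGraph V E) (v : E × Bool → V) (hv : ∀ e, G.ends e = s(v (e, false), v (e, true)))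
    (X : Finset V) (H : Finset E) :
    cn (fun e => v (e, false)) (fun e => v (e, true)) H X = (cut G X ∩ H).card := by
  unfold cn
  congr 1
  ext e
  rw [Finset.mem_filter, Finset.mem_inter, mem_cut G v hv]
  tauto

/-- an eulerian weight is a flow modulo two -/
lemma flow_of_eulerian {V E : Type} [Fintype V] [DecidableEq V] [Fintype E] [DecidableEq E]
    (G : MGraph V E) (v : E × Bool → V) (hv : ∀ e, G.ends e = s(v (e, false), v (e, true)))
    (w : E → ℕ) (hw : ∀ X : Finset V, Even (∑ e ∈ cut G X, w e)) :
    IsFlow (fun e => v (e, false)) (fun e => v (e, true)) (fun e => (w e : F2)) := by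
  classical
  intro c
  have h1 := hw (univ.filter (fun x => c x = 1))
  have h2 : ∀ e, (w e : F2) * (c (v (e, false)) + c (v (e, true))) =
      if e ∈ cut G (univ.filter (fun x => c x = 1)) then (w e : F2) else 0 := by
    intro e
    have h5 := mem_cut G v hv (univ.filter (fun x => c x = 1)) e
    simp only [Finset.mem_filter, Finset.mem_univ, true_and] at h5
    by_cases h6 : e ∈ cut G (univ.filter (fun x => c x = 1))
    · rw [if_pos h6]
      have h7 := h5.1 h6
      rcases f2_cases (c (v (e, false))) with h3 | h3 <;>
        rcases f2_cases (c (v (e, true))) with h4 | h4 <;> rw [h3, h4] at h7 ⊢ <;> simp_all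
    · rw [if_neg h6]
      have h7 := not_not.1 (fun h => h6 (h5.2 h))
      rcases f2_cases (c (v (e, false))) with h3 | h3 <;>
        rcases f2_cases (c (v (e, true))) with h4 | h4 <;> rw [h3, h4] at h7 ⊢ <;>
        simp_all [Pool.Agent.Helper879.ECD.f2_add_self]
  rw [Finset.sum_congr rfl (fun e _ => h2 e), ← Finset.sum_filter]
  have h3 : univ.filter (fun e => e ∈ cut G (univ.filter (fun x => c x = 1))) =
      cut G (univ.filter (fun x => c x = 1)) := by ext e; simp
  rw [h3, ← Nat.cast_sum, Pool.Agent.L7h37.GB.natCast_f2, if_neg]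
  rw [Nat.even_iff] at h1
  omega

/-- Let `w` be an eulerian weight of the finite graph `G`: the total weight of every cut is even.

1. Let `H 0, ..., H (N - 1)` be even subgraphs of `G`, repetitions allowed, each of which contains
   an edge of every nonempty cut (if `G` is connected: spanning connected even subgraphs, such as
   Hamilton circuits), and let `n e` be the number of the `i` with `e ∈ H i`. If
   `n e ≤ w e ≤ 2 N + 1 - n e` for every edge `e`, then `(G, w)` has a faithful circuit cover.
2. If every nonempty cut of `G` has at least `2 t` edges, `t ≥ 2`, and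
   `j ≤ w e ≤ 2 ⌊j t / 2⌋ + 1 - j` for every edge `e`, then `(G, w)` has a faithful circuit cover.
   For `j = 2` these are all eulerian weights with `2 ≤ w e ≤ 2 t - 1`. -/
theorem result {V E : Type} [Fintype V] [DecidableEq V] [Fintype E] [DecidableEq E]
    (G : MGraph V E) (w : E → ℕ) (hw : ∀ X : Finset V, Even (∑ e ∈ cut G X, w e)) :
    (∀ (N : ℕ) (H : Fin N → Finset E),
      (∀ i, (∀ v, Even (G.deg (H i) v)) ∧
        ∀ X, (cut G X).Nonempty → (cut G X ∩ H i).Nonempty) →
      (∀ e, (univ.filter fun i => e ∈ H i).card ≤ w e ∧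
        w e + (univ.filter fun i => e ∈ H i).card ≤ 2 * N + 1) → HasCover G w) ∧
    ∀ t j : ℕ, 2 ≤ t → (∀ X, (cut G X).Nonempty → 2 * t ≤ (cut G X).card) →
      (∀ e, j ≤ w e ∧ w e + j ≤ 2 * (j * t / 2) + 1) → HasCover G w := by
  obtain ⟨v, hv⟩ := G.exists_halves
  have hfl := flow_of_eulerian G v hv w hw
  have h0 : ∀ X, cn (fun e => v (e, false)) (fun e => v (e, true)) univ X = (cut G X).card := by
    intro X
    rw [cn_eq G v hv, Finset.inter_univ]
  refine ⟨fun N H hH h => ?_, fun t j ht hcut h => ?_⟩
  · refine Pool.Agent.L7h37.GB.box_odd G v hv H ?_ ?_ N (by simp) w hfl _ (fun e => rfl)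
      (fun e => (h e).1) (fun e => (h e).2)
    · intro i X
      rw [h0, cn_eq G v hv]
      rcases Finset.eq_empty_or_nonempty (cut G X) with h1 | h1
      · left; rw [h1]; rfl
      · exact Or.inr (Finset.card_pos.2 ((hH i).2 X h1))
    · intro i
      have h1 := (G.isEven_iff v hv (H i)).1 (hH i).1
      exact (Pool.Agent.H126R2.CDC.isFl_iff v _).1 h1
  · refine Pool.Agent.L7h37.GB.cover_cuts_even G v hv t ht ?_ w hfl j (fun e => (h e).1)
      (fun e => (h e).2)
    intro X
    rw [h0]
    rcases Finset.eq_empty_or_nonempty (cut G X) with h1 | h1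
    · left; rw [h1]; rfl
    · exact Or.inr (hcut X h1)

end Pool.Agent.Results.MP_2c3f2e_co.SpanningEvenSubgraphs
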