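import Pool.Agent.L7h37.GB.Three
import Pool.Agent.L7h37.GB.Even

set_option autoImplicit false

/-!
# Faithful circuit covers from spanning two-edge-connected subgraphs

Graphs are finite, with loops and parallel edges allowed: `MGraph V E` is a graph with vertex set
`V` and edge set `E`, and `G.IsCircuit C` says that `C` is the edge set of a connected 2-regular
subgraph. Both are defined in `Pool.Agent.H126R2.CDC.Defs`.

Idea of the proof. If a subgraph `H` has at least two edges in every nonempty cut of `G` and `Y` is
disjoint from `H`, there are circuits covering `H` four times and `Y` eight times (a nowhere-zero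
flow of `H` with values in the cube of the field with two elements and an even subgraph `Z` with
`Z \ H = Y`), and circuits covering `H ∪ Y` twice (circuit double covers). Two units of the first
or one unit of the second kind for every `H i` give all even weights in the box; the edges of odd
weight form an even subgraph. For the last part, eight colours for the edges of a subgraph with at
least three edges in every nonempty cut (a theorem of the starting library) give eight subgraphs.
-/

namespace Pool.Agent.Results.MP_2c3f2e_co.SpanningSubgraphs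

open Finset
open Pool.Agent.H126R2.CDC (MGraph)
open Pool.Agent.Helper879.ECD (F2 IsFlow f2_cases cn)

open Classical in
/-- the set of the edges of `G` with exactly one end in `X` -/
noncomputable def cut {V E : Type} [Fintype E] (G : MGraph V E) (X : Finset V) : Finset E :=
  univ.filter fun e => (∃ x ∈ G.ends e, x ∈ X) ∧ ∃ y ∈ G.ends e, y ∉ X

/-- `(G, w)` has a faithful circuit cover: a finite family of circuits, repetitions allowed, such
that every edge `e` lies in exactly `w e` members -/
def HasCover {V E : Type} [Fintype V] [DecidableEq V] [Fintype E] [DecidableEq E]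
    (G : MGraph V E) (w : E → ℕ) : Prop :=
  ∃ F : Multiset (Finset E), (∀ C ∈ F, G.IsCircuit C) ∧ ∀ e, F.countP (fun C => e ∈ C) = w e

/-- every nonempty cut of `G` has at least `k` edges in `H` -/
def Meets {V E : Type} [Fintype E] [DecidableEq E] (G : MGraph V E) (k : ℕ) (H : Finset E) : Prop :=
  ∀ X, (cut G X).Nonempty → k ≤ (cut G X ∩ H).card

lemma mem_cut {V E : Type} [Fintype V] [DecidableEq V] [Fintype E] [DecidableEq E]
    (G : MGraph V E) (v : E × Bool → V) (hv : ∀ e, G.ends e = s(v (e, false), v (e, true)))
    (X : Finset V) (e : E) : e ∈ cut G X ↔ ¬ (v (e, false) ∈ X ↔ v (e, true) ∈ X) := by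
  simp only [cut, Finset.mem_filter, Finset.mem_univ, true_and, hv e, Sym2.mem_iff]
  constructor
  · rintro ⟨⟨x, hx, hx'⟩, ⟨y, hy, hy'⟩⟩ h
    rcases hx with rfl | rfl <;> rcases hy with rfl | rfl <;> tauto
  · intro h
    by_cases h1 : v (e, false) ∈ X
    · have h2 : v (e, true) ∉ X := fun h2 => h ⟨fun _ => h2, fun _ => h1⟩
      exact ⟨⟨_, Or.inl rfl, h1⟩, ⟨_, Or.inr rfl, h2⟩⟩
    · have h2 : v (e, true) ∈ X := by
        by_contra h2
        exact h ⟨fun h3 => absurd h3 h1, fun h3 => absurd h3 h2⟩
      exact ⟨⟨_, Or.inr rfl, h2⟩, ⟨_, Or.inl rfl, h1⟩⟩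

lemma cn_eq {V E : Type} [Fintype V] [DecidableEq V] [Fintype E] [DecidableEq E]
    (G : MGraph V E) (v : E × Bool → V) (hv : ∀ e, G.ends e = s(v (e, false), v (e, true)))
    (X : Finset V) (H : Finset E) :
    cn (fun e => v (e, false)) (fun e => v (e, true)) H X = (cut G X ∩ H).card := by
  unfold cn
  congr 1
  ext e
  rw [Finset.mem_filter, Finset.mem_inter, mem_cut G v hv]
  tauto

lemma cn_of_meets {V E : Type} [Fintype V] [DecidableEq V] [Fintype E] [DecidableEq E]
    (G : MGraph V E) (v : E × Bool → V) (hv : ∀ e, G.ends e = s(v (e, false), v (e, true)))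
    (k : ℕ) (H : Finset E) (h : Meets G k H) (X : Finset V) :
    cn (fun e => v (e, false)) (fun e => v (e, true)) univ X = 0 ∨
      k ≤ cn (fun e => v (e, false)) (fun e => v (e, true)) H X := by
  rw [cn_eq G v hv, cn_eq G v hv, Finset.inter_univ]
  rcases Finset.eq_empty_or_nonempty (cut G X) with h1 | h1
  · left; rw [h1]; rfl
  · exact Or.inr (h X h1)

/-- an eulerian weight is a flow modulo two -/
lemma flow_of_eulerian {V E : Type} [Fintype V] [DecidableEq V] [Fintype E] [DecidableEq E]
    (G : MGraph V E) (v : E × Bool → V) (hv : ∀ e, G.ends e = s(v (e, false), v (e, true)))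
    (w : E → ℕ) (hw : ∀ X : Finset V, Even (∑ e ∈ cut G X, w e)) :
    IsFlow (fun e => v (e, false)) (fun e => v (e, true)) (fun e => (w e : F2)) := by
  classical
  intro c
  have h1 := hw (univ.filter (fun x => c x = 1))
  have h2 : ∀ e, (w e : F2) * (c (v (e, false)) + c (v (e, true))) =
      if e ∈ cut G (univ.filter (fun x => c x = 1)) then (w e : F2) else 0 := by
    intro e
    have h5 := mem_cut G v hv (univ.filter (fun x => c x = 1)) e
    simp only [Finset.mem_filter, Finset.mem_univ, true_and] at h5
    by_cases h6 : e ∈ cut G (univ.filter (fun x => c x = 1))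
    · rw [if_pos h6]
      have h7 := h5.1 h6
      rcases f2_cases (c (v (e, false))) with h3 | h3 <;>
        rcases f2_cases (c (v (e, true))) with h4 | h4 <;> rw [h3, h4] at h7 ⊢ <;> simp_all
    · rw [if_neg h6]
      have h7 := not_not.1 (fun h => h6 (h5.2 h))
      rcases f2_cases (c (v (e, false))) with h3 | h3 <;>
        rcases f2_cases (c (v (e, true))) with h4 | h4 <;> rw [h3, h4] at h7 ⊢ <;>
        simp_all [Pool.Agent.Helper879.ECD.f2_add_self]
  rw [Finset.sum_congr rfl (fun e _ => h2 e), ← Finset.sum_filter]
  have h3 : univ.filter (fun e => e ∈ cut G (univ.filter (fun x => c x = 1))) =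
      cut G (univ.filter (fun x => c x = 1)) := by ext e; simp
  rw [h3, ← Nat.cast_sum, Pool.Agent.L7h37.GB.natCast_f2, if_neg]
  rw [Nat.even_iff] at h1
  omega

/-- Let `w` be an eulerian weight of the finite graph `G`: the total weight of every cut is even.

1. Let `H 0, ..., H (N - 1)` be edge sets, repetitions allowed, each with at least two edges in
   every nonempty cut of `G` (if `G` is connected: spanning two-edge-connected subgraphs), and let
   `n e` be the number of the `i` with `e ∈ H i`. If for some `k` every edge `e` satisfies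
   `2 k n e ≤ w e ≤ 2 k n e + 4 (k - 2) (N - n e) + 1` (with `k - 2` read as `0` for `k ≤ 2`), then
   `(G, w)` has a faithful circuit cover.
2. Let `H` have at least three edges in every nonempty cut of `G`. If for some `k` we have
   `14 k ≤ w e ≤ 18 k - 7` for the edges `e` of `H` and `w e ≤ 32 k - 63` for all other edges, then
   `(G, w)` has a faithful circuit cover. -/
theorem result {V E : Type} [Fintype V] [DecidableEq V] [Fintype E] [DecidableEq E]
    (G : MGraph V E) (w : E → ℕ) (hw : ∀ X : Finset V, Even (∑ e ∈ cut G X, w e)) :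
    (∀ (N k : ℕ) (H : Fin N → Finset E), (∀ i, Meets G 2 (H i)) →
      (∀ e, 2 * k * (univ.filter fun i => e ∈ H i).card ≤ w e ∧
        w e ≤ 2 * k * (univ.filter fun i => e ∈ H i).card +
          4 * (k - 2) * (N - (univ.filter fun i => e ∈ H i).card) + 1) → HasCover G w) ∧
    ∀ (k : ℕ) (H : Finset E), Meets G 3 H → (∀ e ∈ H, 14 * k ≤ w e ∧ w e + 7 ≤ 18 * k) →
      (∀ e, e ∉ H → w e + 63 ≤ 32 * k) → HasCover G w := by
  obtain ⟨v, hv⟩ := G.exists_halves
  have hfl := flow_of_eulerian G v hv w hw
  have hodd := Pool.Agent.L7h37.GB.cone_of_flow G v hv _ hfl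
  have hfin : Pool.Agent.H126R2.NC.InIntCone G (fun e => 2 * (w e / 2)) → HasCover G w := by
    intro h
    refine Pool.Agent.TH399.CC.intCone_add G h hodd (fun e => ?_)
    rw [Pool.Agent.L7h37.GB.natCast_f2]
    rcases Nat.mod_two_eq_zero_or_one (w e) with h1 | h1
    · rw [h1]
      simp only [if_false, zero_ne_one]
      omega
    · rw [h1]
      simp only [if_true]
      omega
  refine ⟨fun N k H hH h => hfin ?_, fun k H hH h1 h2 => hfin ?_⟩
  · refine Pool.Agent.L7h37.GB.box_even G v hv H (fun i => cn_of_meets G v hv 2 (H i) (hH i)) N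
      (by simp) k (fun e => w e / 2) _ (fun e => rfl) (fun e => ?_) (fun e => ?_)
    · have h1 := (h e).1
      rw [mul_assoc] at h1
      show k * (univ.filter fun i => e ∈ H i).card ≤ w e / 2
      omega
    · have h1 := (h e).2
      have h3 : 2 * k * (univ.filter fun i => e ∈ H i).card =
          2 * (k * (univ.filter fun i => e ∈ H i).card) := by ring
      have h4 : 4 * (k - 2) * (N - (univ.filter fun i => e ∈ H i).card) =
          2 * (2 * (k - 2) * (N - (univ.filter fun i => e ∈ H i).card)) := by ring
      rw [h3, h4] at h1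
      show w e / 2 ≤ k * (univ.filter fun i => e ∈ H i).card +
        2 * (k - 2) * (N - (univ.filter fun i => e ∈ H i).card)
      omega
  · exact Pool.Agent.L7h37.GB.cover_three G v hv H (cn_of_meets G v hv 3 H hH) w k h1 h2

end Pool.Agent.Results.MP_2c3f2e_co.SpanningSubgraphs
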